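import Mathlib
import Pool.Agent.W90.ZT.Zeta

/-!
A single coefficient of the `L`-functions in a `ℤ_p`-tower generates a field of bounded index in the
field of `p ^ n`-th roots of unity.
-/

set_option autoImplicit false

open PowerSeries IntermediateField
open scoped PowerSeries.WithPiTopology

namespace Pool.Agent.Y841.ZT

open Pool.Agent.H387R3.ZT Pool.Agent.H707R3 Pool.Agent.H412R3.ZT Pool.Agent.W90.ZT

variable {p : ℕ} [Fact p.Prime]

/-- An Euler product with trivial exponents is not a polynomial. -/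
lemma exists_ne_zero {ι : Type*} [Nonempty ι] (ρ : ι → ℤ_[p]) (d : ι → ℕ) (hd : ∀ v, d v ≠ 0)
    (hfin : ∀ k, {v | d v ≤ k}.Finite) {n : ℕ} {z : ℂ_[p]} (A : Multiset ℂ_[p])
    (hA : eulerL ρ d n z = recipProd A) : ∃ v, ρ v ≠ 0 := by
  classical
  by_contra hρ
  push Not at hρ
  obtain ⟨v₀⟩ := (inferInstance : Nonempty ι)
  set k := (Multiset.card A + 1) * d v₀ with hk
  have hkA : Multiset.card A < k := by
    have : 1 ≤ d v₀ := Nat.pos_of_ne_zero (hd v₀)
    calc Multiset.card A < Multiset.card A + 1 := Nat.lt_succ_self _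
      _ ≤ (Multiset.card A + 1) * d v₀ := Nat.le_mul_of_pos_right _ this
  have h0 := coeff_recipProd_eq_zero A k hkA
  have hfun : (fun v => (1 - C (z ^ res n (ρ v)) * X ^ d v : PowerSeries ℂ_[p])⁻¹) =
      fun v => geom (1 : ℂ_[p]) (d v) := by
    funext v
    rw [inv_eq_geom _ (hd v), hρ v]
    simp [res]
  rw [← hA, eulerL, hfun, coeff_tprod_geom (fun _ => (1 : ℂ_[p])) d hfin k] at h0
  have hmap : (∏ v ∈ (hfin k).toFinset, geom (1 : ℂ_[p]) (d v)) =
      PowerSeries.map (Nat.castRingHom ℂ_[p]) (∏ v ∈ (hfin k).toFinset, geom (1 : ℕ) (d v)) := by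
    rw [map_prod (PowerSeries.map (Nat.castRingHom ℂ_[p]))]
    refine Finset.prod_congr rfl fun v _ => ?_
    rw [map_geom, map_one]
  rw [hmap, coeff_map] at h0
  have h1 : coeff k (∏ v ∈ (hfin k).toFinset, geom (1 : ℕ) (d v)) = 0 := by
    have : ((coeff k (∏ v ∈ (hfin k).toFinset, geom (1 : ℕ) (d v)) : ℕ) : ℂ_[p]) = 0 := h0
    exact_mod_cast this
  have hv₀ : v₀ ∈ (hfin k).toFinset := by
    simp only [Set.Finite.mem_toFinset, Set.mem_ofPred_eq, hk]
    exact Nat.le_mul_of_pos_left _ (Nat.succ_pos _)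
  have h2 := le_coeff_prod (AddMonoidHom.id ℕ) (hfin k).toFinset (fun v => geom (1 : ℕ) (d v))
    (fun i _ => coeff_zero_geom _ _) hv₀ k
  simp only [AddMonoidHom.id_apply] at h2
  rw [h1, coeff_geom, if_pos (Dvd.intro_left _ hk.symm), one_pow] at h2
  omega

/-- The coefficient of `s ^ (d v₀)` is enough. -/
theorem core_one {ι : Type*} (ρ : ι → ℤ_[p]) (d : ι → ℕ) (hd : ∀ v, d v ≠ 0)
    (hfin : ∀ k, {v | d v ≤ k}.Finite) (v₀ : ι) (hv₀ : ρ v₀ ≠ 0) :
    ∃ D : ℕ, 0 < D ∧ ∃ N : ℕ, ∀ n, N ≤ n → ∀ z : ℂ_[p], IsPrimitiveRoot z (p ^ n) →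
      ∀ K : IntermediateField ℚ_[p] ℂ_[p], coeff (d v₀) (eulerL ρ d n z) ∈ K →
          FiniteDimensional K K⟮z⟯ ∧ Module.finrank K K⟮z⟯ ≤ D := by
  classical
  have hp : p.Prime := Fact.out
  set k := d v₀ with hk
  set M : ℤ_[p] →₀ ℕ := (theta ρ d (hfin k).toFinset k).coeff with hM
  have hb₀ : ρ v₀ ∈ M.support :=
    mem_support_theta ρ d _ (by simp [hk]) (hd v₀)
  obtain ⟨N, hN⟩ := exists_distinct M.support
  refine ⟨M.support.card * p ^ (ρ v₀).valuation, ?_, N + 1, ?_⟩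
  · apply Nat.mul_pos
    · exact Finset.card_pos.2 ⟨_, hb₀⟩
    · exact pow_pos hp.pos _
  · intro n hn z hz K hK
    obtain ⟨n, rfl⟩ : ∃ m, n = m + 1 := ⟨n - 1, by omega⟩
    have hz1 : z ^ p ^ (n + 1) = 1 := hz.pow_eq_one
    have hcoeff := coeff_eulerL ρ d hd hfin hz1
    have hmem : evSum (n + 1) M z ∈ K := by
      rw [hM, ← hcoeff]
      exact hK
    exact finrank_adjoin_le K hz M (hN n (by omega)) hb₀ hv₀ hmem

/-- In a tower, the coefficient of `s ^ (deg v)` of `L(χ, s)`, `v` any unramified place with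
nontrivial Frobenius. -/
theorem tower_one (k : Type*) {F E : Type*} [Field k] [Field F] [Algebra k F]
    [Field E] [Algebra F E] [Finite k] [Algebra k E] (h : IsZpTower k F E p)
    (v : Place k F) (hv : v.IsUnramified E) (hfr : v.frob E ≠ 1) :
    ∃ D : ℕ, 0 < D ∧ ∃ N : ℕ, ∀ n, N ≤ n → ∀ χ : (E ≃ₐ[F] E) →* ℂ_[p]ˣ, orderOf χ = p ^ n →
      ∀ K : IntermediateField ℚ_[p] ℂ_[p], coeff v.deg (Lfun k χ) ∈ K →
          FiniteDimensional K (IntermediateField.adjoin K {w : ℂ_[p] | w ^ p ^ n = 1}) ∧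
          Module.finrank K (IntermediateField.adjoin K {w : ℂ_[p] | w ^ p ^ n = 1}) ≤ D := by
  obtain ⟨Φ⟩ := h.group
  let ι := {v : Place k F // v.IsUnramified E}
  let ρ : ι → ℤ_[p] := fun v => (Φ (v.1.frob E)).toAdd
  let d : ι → ℕ := fun v => v.1.deg
  have hd : ∀ v, d v ≠ 0 := fun v => deg_ne_zero h.base v.1
  have hfin : ∀ m, {v : ι | d v ≤ m}.Finite := by
    intro m
    exact (finite_deg_le h.base m).preimage Subtype.val_injective.injOn
  have hρ : ρ ⟨v, hv⟩ ≠ 0 := by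
    intro h0
    apply hfr
    have h1 : Φ (v.frob E) = 1 := Multiplicative.toAdd.injective h0
    have h2 : Φ (v.frob E) = Φ 1 := by rw [h1, map_one]
    exact Φ.injective h2
  obtain ⟨D, hD, N, hN⟩ := core_one ρ d hd hfin ⟨v, hv⟩ hρ
  refine ⟨D, hD, N, ?_⟩
  intro n hn χ hχ K hK
  obtain ⟨hz, hval⟩ := char_eq Φ.toMulEquiv χ hχ
  rw [adjoin_roots_eq K hz]
  refine hN n hn _ hz K ?_
  have hE : Lfun k χ = eulerL ρ d n
      ((χ (Φ.toMulEquiv.symm (Multiplicative.ofAdd 1)) : ℂ_[p]ˣ) : ℂ_[p]) := by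
    rw [Lfun, eulerL]
    congr 1
    funext v
    rw [hval (v.1.frob E)]
    rfl
  rw [← hE]
  exact hK

/-- There are unramified places with nontrivial Frobenius. -/
theorem exists_frob {k F E : Type} [Field k] [Finite k] [CharP k p]
    [Field F] [Algebra k F] [Field E] [Algebra F E] [Algebra k E] [IsScalarTower k F E]
    (h : IsZpTower k F E p) : ∃ v : Place k F, v.IsUnramified E ∧ v.frob E ≠ 1 := by
  obtain ⟨N', hN'⟩ := Lfun_poly h
  obtain ⟨Φ⟩ := h.group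
  obtain ⟨χ, hχ⟩ := exists_char Φ.toMulEquiv (N' + 1)
  obtain ⟨A, hA⟩ := hN' (N' + 1) (by omega) χ hχ
  let ι := {v : Place k F // v.IsUnramified E}
  have hne : Nonempty ι := by
    have h1 : Infinite (Place k F) := infinite_place h.base
    have h2 : ({v : Place k F | ¬ v.IsUnramified E}ᶜ).Nonempty :=
      (Set.Finite.infinite_compl h.finite_ramified).nonempty
    obtain ⟨v, hv⟩ := h2
    exact ⟨⟨v, not_not.1 hv⟩⟩
  let ρ : ι → ℤ_[p] := fun v => (Φ (v.1.frob E)).toAdd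
  let d : ι → ℕ := fun v => v.1.deg
  have hd : ∀ v, d v ≠ 0 := fun v => deg_ne_zero h.base v.1
  have hfin : ∀ m, {v : ι | d v ≤ m}.Finite := by
    intro m
    exact (finite_deg_le h.base m).preimage Subtype.val_injective.injOn
  obtain ⟨hz, hval⟩ := char_eq Φ.toMulEquiv χ hχ
  have hE : Lfun k χ = eulerL ρ d (N' + 1)
      ((χ (Φ.toMulEquiv.symm (Multiplicative.ofAdd 1)) : ℂ_[p]ˣ) : ℂ_[p]) := by
    rw [Lfun, eulerL]
    congr 1
    funext v
    rw [hval (v.1.frob E)]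
    rfl
  obtain ⟨v, hv⟩ := exists_ne_zero ρ d hd hfin A (hE.symm.trans hA)
  refine ⟨v.1, v.2, fun h0 => hv ?_⟩
  show (Φ (v.1.frob E)).toAdd = 0
  rw [h0, map_one]
  rfl

/-- The coefficients of `L(χ, s)` lie in the field of `p ^ n`-th roots of unity. -/
theorem coeff_mem (k : Type*) {F E : Type*} [Field k] [Field F] [Algebra k F]
    [Field E] [Algebra F E] [Finite k] [Algebra k E] (h : IsZpTower k F E p)
    (n : ℕ) (χ : (E ≃ₐ[F] E) →* ℂ_[p]ˣ) (hχ : orderOf χ = p ^ n) (j : ℕ) :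
    coeff j (Lfun k χ) ∈ IntermediateField.adjoin ℚ_[p] {w : ℂ_[p] | w ^ p ^ n = 1} := by
  classical
  obtain ⟨Φ⟩ := h.group
  let ι := {v : Place k F // v.IsUnramified E}
  let ρ : ι → ℤ_[p] := fun v => (Φ (v.1.frob E)).toAdd
  let d : ι → ℕ := fun v => v.1.deg
  have hd : ∀ v, d v ≠ 0 := fun v => deg_ne_zero h.base v.1
  have hfin : ∀ m, {v : ι | d v ≤ m}.Finite := by
    intro m
    exact (finite_deg_le h.base m).preimage Subtype.val_injective.injOn
  obtain ⟨hz, hval⟩ := char_eq Φ.toMulEquiv χ hχ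
  have hE : Lfun k χ = eulerL ρ d n
      ((χ (Φ.toMulEquiv.symm (Multiplicative.ofAdd 1)) : ℂ_[p]ˣ) : ℂ_[p]) := by
    rw [Lfun, eulerL]
    congr 1
    funext v
    rw [hval (v.1.frob E)]
    rfl
  rw [hE, coeff_eulerL ρ d hd hfin hz.pow_eq_one]
  refine sum_mem fun b _ => mul_mem (_root_.natCast_mem _ _) (pow_mem ?_ _)
  exact IntermediateField.subset_adjoin _ _ hz.pow_eq_one

theorem coeff_int (k : Type*) {F E : Type*} [Field k] [Field F] [Algebra k F]
    [Field E] [Algebra F E] [Finite k] [Algebra k E] (h : IsZpTower k F E p)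
    (n : ℕ) (χ : (E ≃ₐ[F] E) →* ℂ_[p]ˣ) (hχ : orderOf χ = p ^ n) (j : ℕ) :
    IsIntegral ℚ_[p] (coeff j (Lfun k χ)) := by
  have hp : p.Prime := Fact.out
  have h1 := coeff_mem k h n χ hχ j
  have h2 : ∀ x ∈ {w : ℂ_[p] | w ^ p ^ n = 1}, IsIntegral ℚ_[p] x := by
    intro x hx
    refine ⟨Polynomial.X ^ p ^ n - Polynomial.C 1,
      Polynomial.monic_X_pow_sub_C 1 (pow_pos hp.pos _).ne', ?_⟩
    have hx' : x ^ p ^ n = 1 := hx
    simp [hx']
  have h3 := IntermediateField.isAlgebraic_adjoin h2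
  have h4 := h3.isAlgebraic ⟨_, h1⟩
  have h5 : IsAlgebraic ℚ_[p] (coeff j (Lfun k χ)) := by
    have := h4.algebraMap (A := ℂ_[p])
    exact this
  exact h5.isIntegral

end Pool.Agent.Y841.ZT
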