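import Mathlib
import Pool.Agent.Y841.ZT.One

/-!
The coefficient fields inside the splitting fields of the zeta functions of the layers.
-/

set_option autoImplicit false

open PowerSeries IntermediateField
open scoped PowerSeries.WithPiTopology

namespace Pool.Agent.Y841.ZT

open Pool.Agent.H387R3.ZT Pool.Agent.H707R3 Pool.Agent.H412R3.ZT Pool.Agent.W90.ZT

variable {p : ℕ} [Fact p.Prime]

theorem named_coeff {k F E : Type} [Field k] [Finite k] [CharP k p]
    [Field F] [Algebra k F] [Field E] [Algebra F E] [Algebra k E] [IsScalarTower k F E]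
    (h : IsZpTower k F E p) :
    ∃ N : ℕ, ∀ n, N ≤ n → ∀ (K : ℕ → IntermediateField F E)
      (A : ℕ → Multiset ℂ_[p]), Named k F E K A →
        ∀ χ : (E ≃ₐ[F] E) →* ℂ_[p]ˣ, orderOf χ = p ^ n →
          ∀ j : ℕ, coeff j (Lfun k χ) ∈ genField (A n) := by
  classical
  obtain ⟨N₂, hN₂⟩ := H623R3.ZT.taskG p k F E h
  obtain ⟨N₃, hN₃⟩ := taskF2 p k F E h
  refine ⟨max (N₂ + 1) N₃, ?_⟩
  intro n hn K A hKA χ₀ hχ₀ j
  obtain ⟨m, rfl⟩ : ∃ m, n = m + 1 := ⟨n - 1, by omega⟩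
  have hm : N₂ ≤ m := by omega
  obtain ⟨s, hs, hfac⟩ := hN₂ K (fun n => (hKA n).1) m hm
  have hB : ∀ χ : (E ≃ₐ[F] E) →* ℂ_[p]ˣ, orderOf χ = p ^ (m + 1) →
      ∃ B : Multiset ℂ_[p], Lfun k χ = recipProd B := fun χ hχ =>
    weil p k F E h (m + 1) χ hχ (hN₃ K A hKA (m + 1) χ (by omega) hχ)
  choose! B hB' using hB
  have hfac2 : recipProd (A (m + 1)) = recipProd (B χ₀) *
      recipProd (A m + ∑ χ ∈ s.erase χ₀, B χ) := by
    rw [← (hKA (m + 1)).2, hfac]
    have h1 : ∏ χ ∈ s, Lfun k χ = recipProd (B χ₀) * recipProd (∑ χ ∈ s.erase χ₀, B χ) := by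
      rw [← recipProd_finset, ← Finset.mul_prod_erase s _ ((hs χ₀).2 hχ₀), hB' χ₀ hχ₀]
      congr 1
      refine Finset.prod_congr rfl fun χ hχ => ?_
      exact hB' χ ((hs χ).1 (Finset.mem_of_mem_erase hχ))
    rw [h1, recipProd_add, ← (hKA m).2]
    ring
  have h2 : genField (B χ₀) ≤ genField (A (m + 1)) := genField_le hfac2
  apply h2
  rw [hB' χ₀ hχ₀]
  exact coeff_recipProd_mem _ (B χ₀) (fun α hα => IntermediateField.subset_adjoin _ _ hα) j

theorem layer_coeff {k F E : Type} [Field k] [Finite k] [CharP k p]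
    [Field F] [Algebra k F] [Field E] [Algebra F E] [Algebra k E] [IsScalarTower k F E]
    (h : IsZpTower k F E p) :
    ∃ N : ℕ, ∀ n, N ≤ n → ∀ K : IntermediateField F E,
      Module.finrank F K = p ^ n → ∀ A : Multiset ℂ_[p], RecipRoots p k K A →
        ∀ χ : (E ≃ₐ[F] E) →* ℂ_[p]ˣ, orderOf χ = p ^ n →
          ∀ j : ℕ, coeff j (Lfun k χ) ∈ genField A := by
  obtain ⟨N, hN⟩ := named_coeff h
  refine ⟨N, fun n hn K hK A hA => ?_⟩
  obtain ⟨K', A', hNm, rfl, rfl⟩ := exists_family h n K hK A hA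
  exact hN n hn K' A' hNm

/-- Ramification indices divide in towers. -/
theorem ramIdx_dvd {K M : IntermediateField ℚ_[p] ℂ_[p]} (h : K ≤ M) : ramIdx K ∣ ramIdx M := by
  have hmul : ramIdx K * (valGroup K).relIndex (valGroup M) = ramIdx M :=
    Subgroup.relIndex_mul_relIndex _ _ _ (valGroup_mono bot_le) (valGroup_mono h)
  exact ⟨_, hmul.symm⟩

/-- Divisibility of the ramification index of every field which contains the coefficient. -/
theorem tower_dvd (k : Type*) {F E : Type*} [Field k] [Field F] [Algebra k F]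
    [Field E] [Algebra F E] [Finite k] [Algebra k E] (h : IsZpTower k F E p)
    (v : Place k F) (hv : v.IsUnramified E) (hfr : v.frob E ≠ 1) :
    ∃ m N : ℕ, ∀ n, N ≤ n → ∀ χ : (E ≃ₐ[F] E) →* ℂ_[p]ˣ, orderOf χ = p ^ n →
      ∀ K : IntermediateField ℚ_[p] ℂ_[p], coeff v.deg (Lfun k χ) ∈ K →
        p ^ (n - m) ∣ ramIdx K := by
  obtain ⟨D, hD, N, hN⟩ := tower_one (p := p) k h v hv hfr
  obtain ⟨m, hm⟩ := pow_unbounded_of_one_lt D (Fact.out : p.Prime).one_lt
  refine ⟨m + 1, max N 1, fun n hn χ hχ K hK => ?_⟩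
  by_cases h0 : ramIdx K = 0
  · rw [h0]; exact dvd_zero _
  obtain ⟨h1, h2⟩ := hN n (by omega) χ hχ K hK
  obtain ⟨l, rfl⟩ : ∃ l, n = l + 1 := ⟨n - 1, by omega⟩
  have h3 := W90.ZT.pow_dvd_ramIdx K h0 h1 h2 hm
  have h4 : l + 1 - (m + 1) = l - m := by omega
  rw [h4]
  exact h3

theorem one_ramIdx_ne_zero (k : Type*) {F E : Type*} [Field k] [Field F] [Algebra k F]
    [Field E] [Algebra F E] [Finite k] [Algebra k E] (h : IsZpTower k F E p)
    (n : ℕ) (χ : (E ≃ₐ[F] E) →* ℂ_[p]ˣ) (hχ : orderOf χ = p ^ n) (j : ℕ) :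
    0 < ramIdx (IntermediateField.adjoin ℚ_[p] {coeff j (Lfun k χ)}) := by
  have hcint := coeff_int k h n χ hχ j
  have hset : (IntermediateField.adjoin ℚ_[p] {coeff j (Lfun k χ)}) =
      genField ({coeff j (Lfun k χ)} : Multiset ℂ_[p]) := by
    unfold genField
    congr 1
    ext x; simp
  have hint : ∀ α ∈ ({coeff j (Lfun k χ)} : Multiset ℂ_[p]), IsIntegral ℚ_[p] α := by
    intro α hα
    rw [Multiset.mem_singleton] at hα
    rw [hα]; exact hcint
  rw [hset]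
  exact Nat.pos_of_ne_zero (ramIdx_ne_zero _ hint)

end Pool.Agent.Y841.ZT
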